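import Pool.Agent.H84.NT.Targets5

/-! # MP_57ddd5_pr: SGB, one good block is ready for the swap -/

open MeasureTheory ProbabilityTheory
open scoped ENNReal

namespace Pool.Agent.H86.NT

open Pool.Agent.H99.NS Pool.Agent.H22.LPP Pool.Agent.H95.INS Pool.Agent.H76.ND Pool.Agent.H95.ND
open Pool.Agent.H84.NT5
open Pool.Agent.H84.NT hiding lv two_lv

theorem near_sh {ω : Env} {a o e : Site} {c : ℝ} {g : ℤ → ℤ}
    (h : Near ω o e c g) :
    Near (shiftE a ω) (o - a) (e - a) c (fun r => g (r + a.1) - a.2) := by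
  obtain ⟨h1, h2⟩ := h
  refine ⟨?_, ?_⟩
  · have h3 := conn_shift (-a) h1
    simp only [Prod.fst_neg, Prod.snd_neg, sub_neg_eq_add, ← sub_eq_add_neg] at h3
    exact h3
  · rw [T_shift, wt_shift]
    simp only [Prod.fst_sub, sub_add_cancel]
    exact h2

theorem pf_SGB (h_LAM : B_LAM) (h_LAMM : B_LAMM) : T_SGB := by
  intro q κ Ks B H Y K a b a1 A Aa Xb Xa j s x Cdd ω γ D Da m hq0 hq1 hD hDa hb hba haa1
    hKa haK hj hκ hsg hAa hXb hXa hsep hyh hCdd hCB hHa hκa1 hOR hs1 hs2 hev hx1 hx2 hdisp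
    hLG hPE hnear hdis hp1 hp2 hp3
  -- integer scales
  obtain ⟨P, hP⟩ : ∃ P : ℤ, P = 64 ^ (b - 1) := ⟨_, rfl⟩
  obtain ⟨Q, hQ⟩ : ∃ Q : ℤ, Q = 64 ^ (a - 1) := ⟨_, rfl⟩
  obtain ⟨R, hR⟩ : ∃ R : ℤ, R = 64 ^ (K - 1) := ⟨_, rfl⟩
  have hP1 : 1 ≤ P := by rw [hP]; exact one_le_pow₀ (by norm_num)
  have hPQ : 4096 * P ≤ Q := by
    have h1 : (64 : ℤ) ^ (a - 1) = 64 ^ (b - 1) * 64 ^ 2 * 64 ^ (a - b - 2) := by
      rw [← pow_add, ← pow_add]; congr 1; omega
    have h2 : (1 : ℤ) ≤ 64 ^ (a - b - 2) := one_le_pow₀ (by norm_num)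
    rw [hQ, h1, ← hP]
    nlinarith only [h2, hP1]
  have hQR : 4096 * Q ≤ R := by
    have h1 : (64 : ℤ) ^ (K - 1) = 64 ^ (a - 1) * 64 ^ 2 * 64 ^ (K - a - 2) := by
      rw [← pow_add, ← pow_add]; congr 1; omega
    have h2 : (1 : ℤ) ≤ 64 ^ (K - a - 2) := one_le_pow₀ (by norm_num)
    have h3 : 0 ≤ Q := by linarith
    rw [hR, h1, ← hQ]
    nlinarith only [h2, hP1, hPQ]
  have e64b : (64 : ℤ) ^ b = 64 * P := by
    rw [hP, ← pow_succ']; congr 1; omega
  have e64b1 : (64 : ℤ) ^ (b + 1) = 4096 * P := by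
    rw [pow_succ, e64b]; ring
  have elva : Pool.Agent.H76.ND.lv a = 32 * Q := by rw [hQ]; rfl
  have elva1 : Pool.Agent.H76.ND.lv (a + 1) = 2048 * Q := by
    have h1 : (64 : ℤ) ^ a = 64 * Q := by
      rw [hQ, ← pow_succ']; congr 1; omega
    unfold Pool.Agent.H76.ND.lv
    rw [Nat.add_sub_cancel, h1]; ring
  have eDn : D.n = 8 * P := by rw [hP]; rfl
  have eDan : Da.n = 8 * Q := by rw [hQ]; rfl
  have eo : oK K = (-(32 * R), 0) := by rw [hR]; rfl
  have ee : eK K = (32 * R, 0) := by rw [hR]; rfl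
  have em : m = s + 2048 * P := by
    show s + 32 * 64 ^ b = _
    rw [e64b]; ring
  rw [e64b1] at hs2 hdisp hp3
  rw [elva] at hs1 hs2 hp1 hdis
  rw [← hR] at hj
  have hj1 := abs_le.mp hj
  -- the geodesic
  have hreach : Reach (oK K) (eK K) := by
    rw [eo, ee]
    refine ⟨?_, ?_⟩
    · simp only [sub_self, abs_zero]; omega
    · simp only [sub_self]
      exact ⟨32 * R, by ring⟩
  have hG : Geod ω (oK K) (eK K) (LK K ω) := (h_LAM ω (oK K) (eK K) hreach).1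
  obtain ⟨G, hGdef⟩ : ∃ G : ℤ → ℤ, G = LK K ω := ⟨_, rfl⟩
  rw [← hGdef] at hG hev hx1 hx2 hdisp hdis hp1 hp2 hp3
  have hGN : Near ω (oK K) (eK K) (4 ^ a) G := by
    refine ⟨hG.1, ?_⟩
    rw [hG.2]
    have : (0 : ℝ) ≤ 4 ^ a := by positivity
    linarith
  have hpar : ∀ t, -(32 * R) ≤ t → t ≤ 32 * R → Even (t + G t) := by
    intro t h1 h2
    have h3 := hG.1.left (t := t) (by rw [ee]; exact h2)
    have h4 := h3.reach (by rw [eo]; exact h1)
    rw [eo] at h4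
    obtain ⟨k, hk⟩ := h4.2
    simp only at hk
    exact ⟨k - 16 * R, by omega⟩
  -- powers of 16
  obtain ⟨Ua, hUa⟩ : ∃ U : ℝ, U = 16 ^ a := ⟨_, rfl⟩
  obtain ⟨Ub, hUb⟩ : ∃ U : ℝ, U = 16 ^ b := ⟨_, rfl⟩
  have hUb1 : 1 ≤ Ub := by rw [hUb]; exact one_le_pow₀ (by norm_num)
  have hA2 : (2 : ℝ) ≤ A := by exact_mod_cast hD.A2
  have hsepR : 6400 * (A : ℝ) * Ub ≤ Ua := by
    rw [hUa, hUb]; exact_mod_cast hsep
  have hUab : 12800 * Ub ≤ Ua := by nlinarith only [hA2, hsepR, hq0, hq1, hUb1]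
  have hAUb : (A : ℝ) * Ub ≤ Ua := by nlinarith only [hq0, hq1, hUb1, hsepR, hUab]
  have hUa1 : 1 ≤ Ua := by linarith
  have hXbR : (Xb : ℝ) = 20 * Aa * Ua := by
    rw [hXb, hUa]; push_cast; ring
  have hκU : 0 ≤ κ * Ua := by positivity
  have hAaU : (2 * κ + 2) * Ua ≤ Aa * Ua := mul_le_mul_of_nonneg_right hAa (by linarith)
  have hB2 : (2 : ℝ) ≤ B := by
    have : (0 : ℝ) ≤ Cdd := by exact_mod_cast hCdd
    linarith
  -- positions
  have hGj : LK K ω j = G j := by rw [hGdef]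
  obtain ⟨hdt, hdm, hdp, -⟩ := hOR.d G j hGN (by
      rw [sub_self, abs_zero, elva]; omega) (by
      rw [hGj, sub_self, abs_zero]; positivity)
  rw [elva] at hdt
  rw [elva1] at hdm hdp
  rw [← hUa] at hdt hdm hdp
  have hds := hdt s (by rw [abs_le]; constructor <;> omega)
  have hxs : (x : ℝ) ≤ G s ∧ (G s : ℝ) < x + Ub := by
    refine ⟨by exact_mod_cast hx1, ?_⟩
    rw [hUb]; exact_mod_cast hx2
  push_cast at hds hdm hdp
  rw [abs_le] at hds hdm hdp
  have hLx : |((G j - x : ℤ) : ℝ)| ≤ (κ + 1) * Ua := by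
    push_cast
    rw [abs_le]
    constructor
    · linarith [hds.1, hds.2, hxs.1, hxs.2]
    · linarith [hds.1, hds.2, hxs.1, hxs.2]
  have hLx' := abs_le.mp hLx
  push_cast at hLx'
  have hmx : Even (m + x) := by
    have h1 := hpar s (by omega) (by omega)
    obtain ⟨k1, hk1⟩ := h1
    obtain ⟨k2, hk2⟩ := hev
    exact ⟨k1 - k2 + 1024 * P, by omega⟩
  have hjL : Even (j + G j) := hpar j (by omega) (by omega)
  have hreach' : Reach (oK K - (m, x)) (eK K - (m, x)) := by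
    apply (reach_shift (u := oK K - (m, x)) (v := eK K - (m, x)) (m, x)).1
    rw [sub_add_cancel, sub_add_cancel]
    exact hreach
  have hLam : ∀ r, Lam (shiftE (m, x) ω) (oK K - (m, x)) (eK K - (m, x)) r = G (r + m) - x := by
    intro r
    have h := (h_LAMM (oK K - (m, x)) (eK K - (m, x)) r).2.2 (m, x) ω hreach'
    rw [sub_add_cancel, sub_add_cancel] at h
    have h2 : G (r + m) = Lam ω (oK K) (eK K) (r + m) := by rw [hGdef]; rfl
    rw [h2, ← h]
    ring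
  have hshift : shiftE (j - m, G j - x) (shiftE (m, x) ω) = shiftE (j, G j) ω := by
    funext y
    unfold shiftE
    congr 1
    rw [add_assoc]
    congr 1
    ext
    · simp only [Prod.fst_add]; ring
    · simp only [Prod.snd_add]; ring
  rw [hGj] at hPE ⊢
  refine ⟨⟨hD, hDa, rfl, ?_, ?_, ?_, ?_, ?_, ?_, hXa, ?_, ?_, ?_⟩, ⟨?_, ?_, ?_, hreach'⟩,
    ⟨?_, ?_, ?_, ?_⟩, hLG, ?_, ?_, ?_, ?_, ?_, ?_, ?_, hPE, ?_⟩
  · -- ev
    show Even (j - m + (G j - x))
    obtain ⟨k1, hk1⟩ := hmx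
    obtain ⟨k2, hk2⟩ := hjL
    exact ⟨k2 - k1, by omega⟩
  · show -(4 * Da.n) ≤ -(256 * D.n) - (j - m)
    rw [eDan, eDn, em]; omega
  · show 256 * D.n - (j - m) ≤ 4 * Da.n
    rw [eDan, eDn, em]; omega
  · rw [eDan, eDn]; omega
  · -- lat
    show |G j - x| + A * 16 ^ b ≤ Aa * 16 ^ a
    have h1 : ((|G j - x| + A * 16 ^ b : ℤ) : ℝ) ≤ ((Aa * 16 ^ a : ℤ) : ℝ) := by
      push_cast
      push_cast at hLx
      rw [← hUa, ← hUb]
      nlinarith only [hq0, hq1, hUb1, hsepR, hUab, hκU, hAaU, hLx]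
    exact_mod_cast h1
  · -- tub
    show 16 * Aa * 16 ^ a + |G j - x| ≤ Xb
    have h1 : ((16 * Aa * 16 ^ a + |G j - x| : ℤ) : ℝ) ≤ (Xb : ℝ) := by
      rw [hXbR]
      push_cast
      push_cast at hLx
      rw [← hUa]
      nlinarith only [hq0, hq1, hUb1, hUab, hκU, hAaU, hLx]
    exact_mod_cast h1
  · exact hsep
  · exact hyh
  · exact hsg
  · -- en o1
    rw [eo, eDn]
    show -(32 * R) - m ≤ _
    rw [em]; omega
  · rw [ee, eDn]
    show _ ≤ 32 * R - m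
    rw [em]; omega
  · rw [eo]
    show Even (-(32 * R) - m + (0 - x))
    obtain ⟨k1, hk1⟩ := hmx
    exact ⟨-(16 * R) - k1, by omega⟩
  · -- ena
    rw [eo, eDan]
    show -(32 * R) - m - (j - m) ≤ _
    omega
  · rw [ee, eDan]
    show _ ≤ 32 * R - m - (j - m)
    omega
  · rw [eo]
    show Even (-(32 * R) - m - (j - m) + (0 - x - (G j - x)))
    obtain ⟨k2, hk2⟩ := hjL
    exact ⟨-(16 * R) - k2, by omega⟩
  · apply (reach_shift (u := oK K - (m, x) - (j - m, G j - x))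
      (v := eK K - (m, x) - (j - m, G j - x)) (j - m, G j - x)).1
    rw [sub_add_cancel, sub_add_cancel]
    exact hreach'
  · -- a1
    rw [hshift]
    have h1 := hOR.u
    rw [hGj] at h1
    exact h1
  · rw [hshift]
    have h1 := hOR.l
    rw [hGj] at h1
    exact ⟨h1.a, h1.b, h1.c, h1.d, h1.e⟩
  · -- l1
    rw [hLam, eDn, em]
    show |((G (-(256 * (8 * P)) + (s + 2048 * P)) - x : ℤ) : ℝ)| ≤ B * ((16 ^ b : ℤ) : ℝ)
    have h1 : -(256 * (8 * P)) + (s + 2048 * P) = s := by ring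
    rw [h1]
    push_cast
    rw [← hUb, abs_le]
    constructor <;> nlinarith only [hUb1, hB2, hxs, hq0, hq1]
  · -- l2
    rw [hLam, eDn, em]
    show |((G (256 * (8 * P) + (s + 2048 * P)) - x : ℤ) : ℝ)| ≤ B * ((16 ^ b : ℤ) : ℝ)
    have h1 : 256 * (8 * P) + (s + 2048 * P) = s + 4096 * P := by ring
    rw [h1]
    have h2 : |((G (s + 4096 * P) - G s : ℤ) : ℝ)| ≤ Cdd * Ub := by
      rw [hUb]; exact_mod_cast hdisp
    push_cast at h2 ⊢
    rw [abs_le] at h2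
    rw [← hUb, abs_le]
    constructor <;> nlinarith only [hCB, hUb1, hxs, h2, hq0, hq1]
  · -- tu
    intro r hr1 hr2
    rw [hLam]
    rw [eDn] at hr1 hr2
    show |G (r + m) - x| < 2 * Xb
    have h1 := hdt (r + m) (by rw [em, abs_le]; constructor <;> omega)
    have h2 : ((|G (r + m) - x| : ℤ) : ℝ) < ((2 * Xb : ℤ) : ℝ) := by
      push_cast
      push_cast at h1
      rw [abs_le] at h1
      rw [hXbR, abs_lt]
      constructor <;> nlinarith only [hq0, hq1, hUb1, hUab, hκU, hAaU, hxs, hds, h1]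
    exact_mod_cast h2
  · -- g1
    rw [hLam, eDan]
    show |((G (j - m - 256 * (8 * Q) + m) - x - (G j - x) : ℤ) : ℝ)| ≤ κ * ((16 ^ a : ℤ) : ℝ)
    have h1 : j - m - 256 * (8 * Q) + m = j - 2048 * Q := by ring
    rw [h1]
    push_cast
    rw [← hUa, abs_le]
    constructor <;> linarith
  · rw [hLam, eDan]
    show |((G (j - m + 256 * (8 * Q) + m) - x - (G j - x) : ℤ) : ℝ)| ≤ κ * ((16 ^ a : ℤ) : ℝ)
    have h1 : j - m + 256 * (8 * Q) + m = j + 2048 * Q := by ring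
    rw [h1]
    push_cast
    rw [← hUa, abs_le]
    constructor <;> linarith
  · -- gam
    have hp1R : |((γ (j - 32 * Q) - G (j - 32 * Q) : ℤ) : ℝ)| ≤ Ub := by
      rw [hUb]; exact_mod_cast hp1
    have hp2R : |((γ s - G s : ℤ) : ℝ)| ≤ Ub := by
      rw [hUb]; exact_mod_cast hp2
    have hp3R : |((γ (s + 4096 * P) - G (s + 4096 * P) : ℤ) : ℝ)| ≤ Ub := by
      rw [hUb]; exact_mod_cast hp3
    have hdispR : |((G (s + 4096 * P) - G s : ℤ) : ℝ)| ≤ Cdd * Ub := by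
      rw [hUb]; exact_mod_cast hdisp
    push_cast at hp1R hp2R hp3R hdispR
    rw [abs_le] at hp1R hp2R hp3R hdispR
    have hdj := hdt (j - 32 * Q) (by rw [abs_le]; constructor <;> omega)
    push_cast at hdj
    rw [abs_le] at hdj
    have hNγ : Near ω (oK K) (eK K) (4 ^ a) γ := by
      refine ⟨hnear.1, ?_⟩
      have := hnear.2
      linarith
    obtain ⟨hγt, -, -, -⟩ := hOR.d γ (j - 32 * Q) hNγ (by
      rw [elva, abs_le]; constructor <;> omega) (by
      rw [hGj]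
      have h1 : ((|γ (j - 32 * Q) - G j| : ℤ) : ℝ) ≤ ((6 * 16 ^ a1 : ℤ) : ℝ) := by
        push_cast
        rw [← hUa, ← hUb] at hκa1
        rw [abs_le]
        constructor <;> linarith
      exact_mod_cast h1)
    rw [elva, ← hUa] at hγt
    refine ⟨fun r => γ (r + m) - x, ?_, ?_, ?_, ?_, ?_⟩
    · exact near_sh (a := (m, x)) hnear
    · rw [eDn, em]
      show |((γ (-(256 * (8 * P)) + (s + 2048 * P)) - x : ℤ) : ℝ)| ≤ B * ((16 ^ b : ℤ) : ℝ)
      have h1 : -(256 * (8 * P)) + (s + 2048 * P) = s := by ring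
      rw [h1]
      push_cast
      rw [← hUb, abs_le]
      constructor <;> nlinarith only [hCB, hUb1, hxs, hp2R, hdispR, hq0, hq1]
    · rw [eDn, em]
      show |((γ (256 * (8 * P) + (s + 2048 * P)) - x : ℤ) : ℝ)| ≤ B * ((16 ^ b : ℤ) : ℝ)
      have h1 : 256 * (8 * P) + (s + 2048 * P) = s + 4096 * P := by ring
      rw [h1]
      push_cast
      rw [← hUb, abs_le]
      constructor <;> nlinarith only [hCB, hUb1, hxs, hp3R, hdispR, hq0, hq1]
    · intro r hr1 hr2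
      rw [eDn] at hr1 hr2
      show |γ (r + m) - x| < 2 * Xb
      have h1 := hγt (r + m) (by rw [em, abs_le]; constructor <;> omega)
      have h2 : ((|γ (r + m) - x| : ℤ) : ℝ) < ((2 * Xb : ℤ) : ℝ) := by
        push_cast
        push_cast at h1
        rw [abs_le] at h1
        rw [hXbR, abs_lt]
        constructor <;> nlinarith only [hq0, hq1, hUb1, hUab, hκU, hAaU, hxs, hds, hp1R, hdj, h1]
      exact_mod_cast h2
    · intro r hr1 hr2
      rw [hLam]
      rw [elva] at hr1 hr2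
      intro h1
      apply hdis (r + m) (by omega) (by omega)
      linarith

end Pool.Agent.H86.NT
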